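import Mathlib
import Pool.Agent.Helper418.G5
open Metric Set Filter Topology InnerProductSpace

namespace Pool.Agent.Results.MP_770c06_an.Disproof

noncomputable section

/-! ### Definitions used in the statement -/

/-- `n`-dimensional Euclidean space. -/
abbrev E (n : ℕ) := EuclideanSpace ℝ (Fin n)

/-- Every point outside `U` is the origin of a closed half-line that avoids `U`. -/
def LinearlyAccessible {n : ℕ} (U : Set (E n)) : Prop :=
  ∀ y : E n, y ∉ U → ∃ v : E n, ‖v‖ = 1 ∧ ∀ s : ℝ, 0 ≤ s → y + s • v ∉ U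

/-- Superharmonic function on a domain `D`: values in `(-∞, ∞]`, not identically `∞`,
lower semicontinuous, and on every closed ball in `D` it satisfies the comparison principle with
functions that are continuous on the closed ball and harmonic in its interior. -/
structure Superharmonic {n : ℕ} (h : E n → EReal) (D : Set (E n)) : Prop where
  ne_bot : ∀ x ∈ D, h x ≠ ⊥
  not_top : ∃ x ∈ D, h x ≠ ⊤
  lsc : LowerSemicontinuousOn h D
  comparison : ∀ (c : E n) (r : ℝ), 0 < r → closedBall c r ⊆ D →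
    ∀ H : E n → ℝ, ContinuousOn H (closedBall c r) → HarmonicOnNhd H (ball c r) →
      (∀ y ∈ sphere c r, (H y : EReal) ≤ h y) → ∀ y ∈ closedBall c r, (H y : EReal) ≤ h y

/-- `Φ(z) = |z|^(2-n)`. -/
def Phi {n : ℕ} (z : E n) : ℝ := (‖z‖ ^ (n - 2))⁻¹

/-- `h` is a positive superharmonic function on `D` such that `h - Φ(· - x₀)` is harmonic
near `x₀`. -/
structure HasPole {n : ℕ} (D : Set (E n)) (x₀ : E n) (h : E n → EReal) : Prop where
  superharmonic : Superharmonic h D
  pos : ∀ x ∈ D, 0 < h x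
  pole : ∃ H : E n → ℝ, HarmonicAt H x₀ ∧
    ∀ᶠ y in 𝓝[≠] x₀, h y = ((Phi (y - x₀) + H y : ℝ) : EReal)

/-- `g` is the Green's function of `D` with pole `x₀`: the smallest positive superharmonic
function on `D` such that `g - Φ(· - x₀)` is harmonic near `x₀`. -/
structure IsGreen {n : ℕ} (D : Set (E n)) (x₀ : E n) (g : E n → EReal) : Prop where
  hasPole : HasPole D x₀ g
  minimal : ∀ h : E n → EReal, HasPole D x₀ h → ∀ x ∈ D, g x ≤ h x

/-- `Ω_t = {x ∈ D : g(x) > t}`. -/
def superlevel {n : ℕ} (D : Set (E n)) (g : E n → EReal) (t : ℝ) : Set (E n) :=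
  {x | x ∈ D ∧ (t : EReal) < g x}

/-! ### The example -/

open Pool.Agent.Helper418.G

/-- first coordinate vector -/
def e : E 5 := EuclideanSpace.single 0 1

/-- the pole `(1,2,2,0,0)` -/
def p : E 5 := EuclideanSpace.single 0 1 + (2:ℝ) • EuclideanSpace.single 1 1 +
  (2:ℝ) • EuclideanSpace.single 2 1

/-- fourth coordinate vector -/
def w : E 5 := EuclideanSpace.single 3 1

/-- the Green's function -/
def g (x : E 5) : EReal := if x = p then ⊤ else (G5 e p x : EReal)

lemma he : ‖e‖ = 1 := by simp [e]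

lemma hw : ‖w‖ = 1 := by simp [w]

lemma hep : inner ℝ e p = (1:ℝ) := by
  simp [e, p, inner_add_right, inner_smul_right, EuclideanSpace.inner_single_left]

lemma hew : inner ℝ e w = (0:ℝ) := by
  simp [e, w, EuclideanSpace.inner_single_left]

lemma hpw : inner ℝ p w = (0:ℝ) := by
  simp [p, w, inner_add_left, inner_smul_left, EuclideanSpace.inner_single_left]

lemma hp : ‖p‖ = 3 := by
  have h : ‖p‖ ^ 2 = 3 ^ 2 := by
    rw [EuclideanSpace.norm_sq_eq]
    simp [p, Fin.sum_univ_succ]
    norm_num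
  exact (pow_left_inj₀ (norm_nonneg _) (by norm_num) (by norm_num)).mp h

def bs : OrthonormalBasis (Fin 5) ℝ (E 5) := EuclideanSpace.basisFun (Fin 5) ℝ

lemma g_p : g p = ⊤ := by simp [g]

lemma g_ne {x : E 5} (hx : x ≠ p) : g x = (G5 e p x : EReal) := by simp [g, hx]

lemma e_ne_p : e ≠ p := by
  intro h
  have h1 := he
  rw [h, hp] at h1
  norm_num at h1

lemma neg_e_mem : -e ∈ D5 e p := by
  change cc * (1 + ‖-e‖) * ‖-e - p‖ ^ 3 < ‖-e‖ * eta e (-e)
  have h1 : ‖-e‖ = 1 := by rw [norm_neg, he]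
  have h2 : ‖-e - p‖ ≤ 4 := by
    have := norm_sub_le (-e) p
    rw [h1, hp] at this
    linarith
  have h3 : eta e (-e) = 2 := by
    unfold eta
    rw [h1, inner_neg_right, real_inner_self_eq_norm_sq, he]
    norm_num
  rw [h1, h3]
  have h4 : ‖-e - p‖ ^ 3 ≤ 4 ^ 3 := by gcongr
  unfold cc
  linarith

lemma neg_e_ne_p : -e ≠ p := by
  intro h
  have h1 : ‖-e‖ = 1 := by rw [norm_neg, he]
  rw [h, hp] at h1
  norm_num at h1

lemma g_superharmonic : Superharmonic g (D5 e p) where
  ne_bot := by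
    intro x _
    by_cases h : x = p
    · rw [h, g_p]; simp
    · rw [g_ne h]; exact EReal.coe_ne_bot _
  not_top := ⟨-e, neg_e_mem, by rw [g_ne neg_e_ne_p]; exact EReal.coe_ne_top _⟩
  lsc := by
    intro x hx
    by_cases h : x = p
    · subst h
      intro a ha
      rw [g_p] at ha
      -- a < ⊤
      apply Filter.Eventually.filter_mono nhdsWithin_le_nhds
      obtain ⟨M, hM, _⟩ := EReal.lt_iff_exists_real_btwn.mp ha
      have h1 := (tendsto_G5 (e := e) hp hep).eventually (eventually_gt_atTop M)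
      rw [eventually_nhdsWithin_iff] at h1
      filter_upwards [h1] with y hy
      by_cases hyp : y = p
      · rw [hyp, g_p]; exact ha
      · rw [g_ne hyp]
        exact hM.trans (EReal.coe_lt_coe_iff.mpr (hy hyp))
    · have h1 : ContinuousAt (fun y => (G5 e p y : EReal)) x :=
        continuous_coe_real_ereal.continuousAt.comp (continuousAt_G5 (D5_pos hx) h)
      have h2 : g =ᶠ[𝓝 x] fun y => (G5 e p y : EReal) := by
        filter_upwards [isOpen_ne.mem_nhds h] with y hy
        exact g_ne hy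
      exact (h1.congr h2.symm).lowerSemicontinuousAt.lowerSemicontinuousWithinAt _
  comparison := by
    intro c r _ hsub H hHc hHh hle y hy
    by_cases hyp : y = p
    · rw [hyp, g_p]; exact le_top
    · rw [g_ne hyp, EReal.coe_le_coe_iff]
      refine comparison_G bs he hp hep hsub hHc hHh ?_ y hy hyp
      intro z hz hzp
      have := hle z hz
      rwa [g_ne hzp, EReal.coe_le_coe_iff] at this

lemma g_pole : HasPole (D5 e p) p g where
  superharmonic := g_superharmonic
  pos := by
    intro x hx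
    by_cases h : x = p
    · rw [h, g_p]; simp
    · rw [g_ne h]
      exact_mod_cast G5_pos hx h
  pole := by
    refine ⟨fun y => -P5 e y, (harmonic_P5 bs he (Apos_p hp hep)).neg, ?_⟩
    filter_upwards [self_mem_nhdsWithin] with y hy
    rw [g_ne hy]
    congr 1
    unfold G5 Phi
    rw [Phi_eq, sub_eq_add_neg]

lemma g_minimal (h : E 5 → EReal) (hh : HasPole (D5 e p) p h) : ∀ x ∈ D5 e p, g x ≤ h x := by
  obtain ⟨K, hK, hpole⟩ := hh.pole
  have hpole' : ∀ᶠ y in 𝓝[≠] p, h y = ((mono (0:E 5) 3 0 (y - p) + K y : ℝ) : EReal) := by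
    filter_upwards [hpole] with y hy
    rw [hy, Phi_eq]
    rfl
  intro x hx
  by_cases hxp : x = p
  · rw [hxp, g_p, top_le_iff]
    by_contra htop
    obtain ⟨M, hM, _⟩ := EReal.lt_iff_exists_real_btwn.mp (lt_top_iff_ne_top.mpr htop)
    have h1 : ∀ᶠ y in 𝓝[≠] p, K y > K p - 1 := by
      have := hK.1.continuousAt.tendsto.mono_left (nhdsWithin_le_nhds (s := {p}ᶜ))
      exact this.eventually (lt_mem_nhds (by linarith))
    have h2 : ∀ᶠ y in 𝓝[≠] p, M - K p + 1 < mono (0:E 5) 3 0 (y - p) :=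
      (tendsto_Phi p).eventually (eventually_gt_atTop _)
    have h3 : ∀ᶠ y in 𝓝[≠] p, (M : EReal) ≤ h y := by
      filter_upwards [h1, h2, hpole'] with y h1 h2 h3
      rw [h3, EReal.coe_le_coe_iff]
      linarith
    rw [eventually_nhdsWithin_iff] at h3
    have h4 : ∀ᶠ y in 𝓝 p, y ∈ D5 e p := (isOpen_D5 e p).mem_nhds (p_mem hp hep)
    obtain ⟨R, hR0, hR⟩ := Metric.nhds_basis_closedBall.mem_iff.mp (h3.and h4)
    have h5 := hh.superharmonic.comparison p R hR0 (fun y hy => (hR hy).2) (fun _ => M)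
      continuousOn_const (fun y _ => harmonicAt_const M)
      (fun y hy => (hR (sphere_subset_closedBall hy)).1 (by
        rintro rfl
        rw [mem_sphere, dist_self] at hy
        exact hR0.ne hy)) p (mem_closedBall_self hR0.le)
    exact absurd h5 (not_le.mpr hM)
  · rw [g_ne hxp]
    exact minimality bs he hp hep hh.superharmonic.lsc hh.pos hh.superharmonic.comparison hK
      hpole' x hx hxp

lemma green : IsGreen (D5 e p) p g := ⟨g_pole, g_minimal⟩

lemma accessible : LinearlyAccessible (D5 e p) := by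
  intro y hy
  rcases le_or_gt 10 ‖y‖ with h | h
  · refine ⟨‖y‖⁻¹ • y, ?_, fun s hs => acc_far hp hy h hs⟩
    rw [norm_smul, norm_inv, norm_norm]
    exact inv_mul_cancel₀ (by linarith)
  · exact ⟨e, he, fun s hs => acc_near he hp hep hy h hs⟩

lemma inOm_iff (x : E 5) : InOm e p x ↔ x ∈ superlevel (D5 e p) g tt := by
  unfold InOm superlevel
  rw [Set.mem_ofPred_eq]
  by_cases h : x = p
  · simp [h, g_p]
  · rw [g_ne h, EReal.coe_lt_coe_iff]
    simp [h]

lemma not_accessible : ¬ LinearlyAccessible (superlevel (D5 e p) g tt) := by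
  intro hacc
  obtain ⟨v, hv, hray⟩ := hacc ((1 / 10 ^ 4 : ℝ) • w)
    (fun hmem => base_point hp hw hew hpw ((inOm_iff _).mpr hmem))
  obtain ⟨l, hl, hin⟩ := ray_meets he hp hep hw hew hv
  exact hray l hl ((inOm_iff _).mp hin)

/-- **Disproof of Q1.** There are `n ≥ 3`, a bounded linearly accessible domain `D ⊆ ℝⁿ`, a point
`x₀ ∈ D` and a level `t > 0` such that `D` has a Green's function with pole `x₀` and for every
(i.e. the) Green's function `g` of `D` with pole `x₀` the set `{g > t}` is not linearly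
accessible. -/
theorem result : ∃ (n : ℕ) (D : Set (E n)) (x₀ : E n), 3 ≤ n ∧ IsOpen D ∧ IsConnected D ∧
    Bornology.IsBounded D ∧ LinearlyAccessible D ∧ x₀ ∈ D ∧ (∃ g, IsGreen D x₀ g) ∧
    ∃ t : ℝ, 0 < t ∧ ∀ g, IsGreen D x₀ g → ¬ LinearlyAccessible (superlevel D g t) := by
  refine ⟨5, D5 e p, p, by norm_num, isOpen_D5 e p,
    ⟨⟨p, p_mem hp hep⟩, isPreconnected_D5 bs he hp hep⟩,
    isBounded_closedBall.subset (D5_bounded he hp), accessible, p_mem hp hep, ⟨g, green⟩,
    tt, by unfold tt; norm_num, ?_⟩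
  intro g' hg'
  have heq : superlevel (D5 e p) g' tt = superlevel (D5 e p) g tt := by
    ext x
    unfold superlevel
    rw [Set.mem_ofPred_eq, Set.mem_ofPred_eq]
    constructor
    · rintro ⟨h1, h2⟩
      exact ⟨h1, h2.trans_le (hg'.minimal g green.hasPole x h1)⟩
    · rintro ⟨h1, h2⟩
      exact ⟨h1, h2.trans_le (green.minimal g' hg'.hasPole x h1)⟩
  rw [heq]
  exact not_accessible

end

end Pool.Agent.Results.MP_770c06_an.Disproof
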